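import Pool.Agent.Helper69.FF.St

set_option autoImplicit false

open FF DV
open scoped BigOperators

namespace Pool.Agent.Helper36.FF

theorem hF1b (hSG : StSG) : StF1b := by
  classical
  intro X _ _ m k s r M f x e θ v K B a σ T₀ he he80 hv hr hk hm hsmall hexp hT0 hK hσ hcard hdisj
    hbig hsum hsign hKl
  set W : Fin m → Fin M → ℝ := fun j l =>
    ∑ i ∈ (B l).filter (fun i => |f j (x i)| < θ), σ l i * f j (x i) with hW
  set U : Fin m → Fin M → ℝ := fun j l =>
    ∑ i ∈ (B l).filter (fun i => θ ≤ |f j (x i)|), |f j (x i)| with hU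
  set u : Fin m → Fin M → ℝ := fun j l =>
    ∑ i ∈ (B l).filter (fun i => θ ≤ |f j (x i)|), σ l i * f j (x i) with hu
  have hr0 : (0 : ℝ) < r := by exact_mod_cast hr
  have hk0 : (0 : ℝ) < k := by exact_mod_cast hk
  have hm0 : (0 : ℝ) < m := by exact_mod_cast hm
  -- squares of the small parts
  have hW1 : ∀ j l, W j l ^ 2 ≤
      r * ∑ i ∈ (B l).filter (fun i => |f j (x i)| < θ), f j (x i) ^ 2 := by
    intro j l
    have h1 : W j l ^ 2 ≤ ((B l).filter (fun i => |f j (x i)| < θ)).card *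
        ∑ i ∈ (B l).filter (fun i => |f j (x i)| < θ), (σ l i * f j (x i)) ^ 2 :=
      sq_sum_le_card_mul_sum_sq
    refine h1.trans ?_
    have h2 : (((B l).filter (fun i => |f j (x i)| < θ)).card : ℝ) ≤ r := by
      exact_mod_cast (Finset.card_filter_le _ _).trans (hcard l)
    refine mul_le_mul h2 (Finset.sum_le_sum fun i _ => ?_)
      (Finset.sum_nonneg fun i _ => sq_nonneg _) hr0.le
    rw [mul_pow]
    have h3 : σ l i ^ 2 ≤ 1 := by
      rw [sq_le_one_iff_abs_le_one]
      exact hσ l i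
    nlinarith [sq_nonneg (f j (x i))]
  have hW2 : ∀ j, ∑ l, W j l ^ 2 ≤ r * v := by
    intro j
    refine (Finset.sum_le_sum fun l _ => hW1 j l).trans ?_
    rw [← Finset.mul_sum]
    refine mul_le_mul_of_nonneg_left ?_ hr0.le
    have h1 : ∑ l, ∑ i ∈ (B l).filter (fun i => |f j (x i)| < θ), f j (x i) ^ 2 =
        ∑ i ∈ (Finset.univ : Finset (Fin M)).biUnion
          (fun l => (B l).filter (fun i => |f j (x i)| < θ)), f j (x i) ^ 2 := by
      rw [Finset.sum_biUnion]
      intro l _ l' _ hll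
      exact Finset.disjoint_filter_filter (hdisj l l' hll)
    rw [h1]
    refine le_trans ?_ (hsmall j)
    rw [← Finset.sum_filter]
    refine Finset.sum_le_sum_of_subset_of_nonneg ?_ (fun i _ _ => sq_nonneg _)
    intro i hi
    rw [Finset.mem_biUnion] at hi
    obtain ⟨l, -, hl⟩ := hi
    rw [Finset.mem_filter] at hl ⊢
    exact ⟨Finset.mem_univ _, hl.2⟩
  -- the unit vectors
  have hcoord : ∀ z : Eu k, ∀ l, |T₀ z l| ≤ (1 + e) * ‖z‖ := by
    intro z l
    have h1 : ‖T₀ z l‖ ≤ ‖T₀ z‖ := norm_le_pi_norm _ _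
    rw [Real.norm_eq_abs] at h1
    exact h1.trans (hT0 z).2
  set E : Fin k → Eu k := fun t => EuclideanSpace.single t (1 : ℝ) with hE
  have hEn : ∀ t, ‖E t‖ = 1 := by
    intro t
    rw [hE]
    simp
  obtain ⟨ω, hω⟩ := hSG (Fin m × Fin k) M (fun q l => T₀ (E q.2) l * W q.1 l) (4 * (r * v))
    (e / (3 * Real.sqrt k)) (by positivity) (by positivity) (by
      rintro ⟨j, t⟩
      have h1 : ∀ l, (T₀ (E t) l * W j l) ^ 2 ≤ 4 * W j l ^ 2 := by
        intro l
        rw [mul_pow]
        have h2 := hcoord (E t) l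
        rw [hEn, mul_one] at h2
        have h3 : |T₀ (E t) l| ≤ 2 := by linarith
        have h4 : T₀ (E t) l ^ 2 ≤ 4 := by
          rw [← sq_abs]
          nlinarith [abs_nonneg (T₀ (E t) l)]
        exact mul_le_mul_of_nonneg_right h4 (sq_nonneg _)
      refine (Finset.sum_le_sum fun l _ => h1 l).trans ?_
      rw [← Finset.mul_sum]
      exact mul_le_mul_of_nonneg_left (hW2 j) (by norm_num)) (by
      have h1 : (e / (3 * Real.sqrt k)) ^ 2 / (2 * (4 * (r * v))) = e ^ 2 / (72 * k * r * v) := by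
        rw [div_pow, mul_pow, Real.sq_sqrt hk0.le]
        field_simp
        ring
      rw [h1]
      have h2 : (Fintype.card (Fin m × Fin k) : ℝ) = m * k := by
        simp
      rw [h2]
      exact hexp)
  -- the map
  set y : Fin M → X := fun l => ∑ i ∈ B l, σ l i • x i with hy
  set T : Eu k →ₗ[ℝ] X :=
    ∑ l, ((LinearMap.proj l : (Fin M → ℝ) →ₗ[ℝ] ℝ).comp T₀).smulRight (sg (ω l) • y l) with hT
  have hTz : ∀ z, T z = ∑ l, (T₀ z l) • (sg (ω l) • y l) := by
    intro z
    rw [hT, LinearMap.sum_apply]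
    rfl
  have hfy : ∀ j l, f j (y l) = u j l + W j l := by
    intro j l
    rw [hy]
    simp only [map_sum, map_smul, smul_eq_mul]
    rw [hu, hW]
    simp only
    rw [← Finset.sum_filter_add_sum_filter_not (B l) (fun i => θ ≤ |f j (x i)|)]
    congr 1
    refine Finset.sum_congr ?_ fun _ _ => rfl
    ext i
    simp only [Finset.mem_filter, not_le]
  have hfT : ∀ z j, f j (T z) = ∑ l, T₀ z l * (sg (ω l) * u j l) +
      ∑ l, T₀ z l * (sg (ω l) * W j l) := by
    intro z j
    rw [hTz, map_sum, ← Finset.sum_add_distrib]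
    refine Finset.sum_congr rfl fun l _ => ?_
    rw [map_smul, map_smul, hfy]
    simp only [smul_eq_mul]
    ring
  have hsg : ∀ b : Bool, |sg b| = 1 := by
    intro b
    cases b <;> simp [sg]
  have huU : ∀ j l, |u j l| ≤ U j l := by
    intro j l
    refine (Finset.abs_sum_le_sum_abs _ _).trans (Finset.sum_le_sum fun i _ => ?_)
    rw [abs_mul]
    have := hσ l i
    nlinarith [abs_nonneg (f j (x i))]
  have hU0 : ∀ j l, 0 ≤ U j l := fun j l => Finset.sum_nonneg fun i _ => abs_nonneg _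
  -- the small part of the sum
  have hsm : ∀ (z : Eu k) (j : Fin m), |∑ l, T₀ z l * (sg (ω l) * W j l)| ≤ e / 3 * ‖z‖ := by
    intro z j
    have hz : z = ∑ t, z t • E t := by
      ext i
      simp only [hE, WithLp.ofLp_sum, WithLp.ofLp_smul, Finset.sum_apply, Pi.smul_apply,
        smul_eq_mul, EuclideanSpace.single_apply]
      simp
    have h1 : ∀ l, T₀ z l = ∑ t, z t * T₀ (E t) l := by
      intro l
      conv_lhs => rw [hz]
      rw [map_sum, Finset.sum_apply]
      refine Finset.sum_congr rfl fun t _ => ?_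
      rw [map_smul, Pi.smul_apply, smul_eq_mul]
    have h2 : ∑ l, T₀ z l * (sg (ω l) * W j l) =
        ∑ t, z t * ∑ l, sg (ω l) * (T₀ (E t) l * W j l) := by
      simp only [h1, Finset.sum_mul, Finset.mul_sum]
      rw [Finset.sum_comm]
      refine Finset.sum_congr rfl fun t _ => Finset.sum_congr rfl fun l _ => ?_
      ring
    rw [h2]
    have h3 : |∑ t, z t * ∑ l, sg (ω l) * (T₀ (E t) l * W j l)| ≤
        ∑ t, |z t| * (e / (3 * Real.sqrt k)) := by
      refine (Finset.abs_sum_le_sum_abs _ _).trans (Finset.sum_le_sum fun t _ => ?_)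
      rw [abs_mul]
      exact mul_le_mul_of_nonneg_left (hω (j, t)) (abs_nonneg _)
    refine h3.trans ?_
    rw [← Finset.sum_mul]
    have h4 : ∑ t, |z t| ≤ Real.sqrt k * ‖z‖ := by
      have h5 : (∑ t, |z t|) ^ 2 ≤ (Real.sqrt k * ‖z‖) ^ 2 := by
        have h6 : (∑ t, |z t|) ^ 2 ≤ (Finset.univ : Finset (Fin k)).card * ∑ t, |z t| ^ 2 :=
          sq_sum_le_card_mul_sum_sq
        rw [Finset.card_univ, Fintype.card_fin] at h6
        rw [mul_pow, Real.sq_sqrt hk0.le, EuclideanSpace.norm_eq,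
          Real.sq_sqrt (Finset.sum_nonneg fun _ _ => sq_nonneg _)]
        simpa only [Real.norm_eq_abs] using h6
      exact le_of_sq_le_sq h5 (by positivity)
    have h7 : (∑ t, |z t|) * (e / (3 * Real.sqrt k)) ≤
        (Real.sqrt k * ‖z‖) * (e / (3 * Real.sqrt k)) :=
      mul_le_mul_of_nonneg_right h4 (by positivity)
    refine h7.trans (le_of_eq ?_)
    have h8 : Real.sqrt k ≠ 0 := (Real.sqrt_pos.2 hk0).ne'
    field_simp
  have habs : ∀ (z : Eu k) j l, |T₀ z l * (sg (ω l) * u j l)| ≤ (1 + e) * ‖z‖ * U j l := by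
    intro z j l
    rw [abs_mul, abs_mul, hsg, one_mul]
    exact mul_le_mul (hcoord z l) (huU j l) (abs_nonneg _)
      (mul_nonneg (by linarith) (norm_nonneg _))
  refine ⟨T, ?_, ?_⟩
  · intro z j
    rw [hfT]
    refine (abs_add_le _ _).trans ?_
    have h1 : |∑ l, T₀ z l * (sg (ω l) * u j l)| ≤ (1 + e) * ‖z‖ * K := by
      refine (Finset.abs_sum_le_sum_abs _ _).trans ?_
      refine (Finset.sum_le_sum fun l _ => habs z j l).trans ?_
      rw [← Finset.mul_sum]
      exact mul_le_mul_of_nonneg_left (hsum j) (mul_nonneg (by linarith) (norm_nonneg _))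
    have h2 := hsm z j
    have h3 : e / 3 * ‖z‖ ≤ e * K * ‖z‖ := by
      refine mul_le_mul_of_nonneg_right ?_ (norm_nonneg _)
      nlinarith
    nlinarith [norm_nonneg z]
  · intro z
    by_cases hz : z = 0
    · refine ⟨⟨0, hm⟩, ?_⟩
      rw [hz, norm_zero, mul_zero]
      exact abs_nonneg _
    have hz0 : 0 < ‖z‖ := norm_pos_iff.2 hz
    have hTz0 : 0 < ‖T₀ z‖ := hz0.trans_le (hT0 z).1
    obtain ⟨l, hl⟩ : ∃ l, ‖T₀ z‖ ≤ |T₀ z l| := by
      by_contra hcon
      push Not at hcon
      have : ‖T₀ z‖ < ‖T₀ z‖ := (pi_norm_lt_iff hTz0).2 fun i => by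
        rw [Real.norm_eq_abs]
        exact hcon i
      exact lt_irrefl _ this
    refine ⟨a l, ?_⟩
    have hfil : (B l).filter (fun i => θ ≤ |f (a l) (x i)|) = B l :=
      Finset.filter_true_of_mem fun i hi => hbig l i hi
    have huu : u (a l) l = U (a l) l := by
      rw [hu, hU]
      simp only
      rw [hfil]
      exact Finset.sum_congr rfl fun i hi => hsign l i hi
    have hUK : K ≤ (1 + e) * U (a l) l := by
      have := hKl l
      rw [hU]
      simp only
      rw [hfil]
      exact this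
    have hsp : ∑ l', T₀ z l' * (sg (ω l') * u (a l) l') = T₀ z l * (sg (ω l) * u (a l) l) +
        ∑ l' ∈ Finset.univ.erase l, T₀ z l' * (sg (ω l') * u (a l) l') :=
      (Finset.add_sum_erase _ (fun l' => T₀ z l' * (sg (ω l') * u (a l) l'))
        (Finset.mem_univ l)).symm
    rw [hfT, hsp, huu]
    have hrest : |∑ l' ∈ Finset.univ.erase l, T₀ z l' * (sg (ω l') * u (a l) l')| ≤
        (1 + e) * ‖z‖ * (K - U (a l) l) := by
      refine (Finset.abs_sum_le_sum_abs _ _).trans ?_
      refine (Finset.sum_le_sum fun l' _ => habs z (a l) l').trans ?_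
      rw [← Finset.mul_sum]
      refine mul_le_mul_of_nonneg_left ?_ (mul_nonneg (by linarith) (norm_nonneg _))
      have h1 := Finset.add_sum_erase Finset.univ (fun l' => U (a l) l') (Finset.mem_univ l)
      have h2 := hsum (a l)
      have h3 : ∑ l', U (a l) l' ≤ K := h2
      linarith
    have hsmz := hsm z (a l)
    have hmain : |T₀ z l * (sg (ω l) * U (a l) l)| = |T₀ z l| * U (a l) l := by
      rw [abs_mul, abs_mul, hsg, one_mul, abs_of_nonneg (hU0 _ _)]
    have hmain2 : ‖z‖ * U (a l) l ≤ |T₀ z l| * U (a l) l :=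
      mul_le_mul_of_nonneg_right ((hT0 z).1.trans hl) (hU0 _ _)
    have h3 : e / 3 * ‖z‖ ≤ e * K * ‖z‖ := by
      refine mul_le_mul_of_nonneg_right ?_ (norm_nonneg _)
      nlinarith
    have hK0 : 0 < K := by linarith
    have hU1 : K * (1 - e) ≤ U (a l) l := by
      have h4 : K * (1 - e) * (1 + e) ≤ U (a l) l * (1 + e) := by nlinarith [mul_pos he he]
      exact le_of_mul_le_mul_right h4 (by linarith)
    have hU2 : K * (2 - e) ≤ U (a l) l * (2 + e) := by nlinarith
    have h5 : K * (1 - 3 * e) * ‖z‖ ≤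
        ‖z‖ * U (a l) l - (1 + e) * ‖z‖ * (K - U (a l) l) - e * K * ‖z‖ := by
      have : 0 ≤ ‖z‖ * (U (a l) l * (2 + e) - K * (2 - e)) :=
        mul_nonneg hz0.le (by linarith)
      nlinarith
    have h6 : |T₀ z l * (sg (ω l) * U (a l) l)| -
        |∑ l' ∈ Finset.univ.erase l, T₀ z l' * (sg (ω l') * u (a l) l')| -
        |∑ l₁, T₀ z l₁ * (sg (ω l₁) * W (a l) l₁)| ≤
        |T₀ z l * (sg (ω l) * U (a l) l) +
          ∑ l' ∈ Finset.univ.erase l, T₀ z l' * (sg (ω l') * u (a l) l') +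
          ∑ l₁, T₀ z l₁ * (sg (ω l₁) * W (a l) l₁)| := by
      set p := T₀ z l * (sg (ω l) * U (a l) l)
      set q := ∑ l' ∈ Finset.univ.erase l, T₀ z l' * (sg (ω l') * u (a l) l')
      set w := ∑ l₁, T₀ z l₁ * (sg (ω l₁) * W (a l) l₁)
      have h7 : |p| ≤ |p + q + w| + |q| + |w| := by
        have h8 : p = (p + q + w) - q - w := by ring
        calc |p| = |(p + q + w) - q - w| := by rw [← h8]
          _ ≤ |(p + q + w) - q| + |w| := abs_sub _ _
          _ ≤ |p + q + w| + |q| + |w| := by linarith [abs_sub (p + q + w) q]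
      linarith
    rw [hmain] at h6
    linarith

end Pool.Agent.Helper36.FF
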